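import Mathlib
import Pool.Agent.Helper22_LLG.Stmt
import Pool.Agent.Helper7_CG.Vio

/-!
# CG: the linear arboricity conjecture for graphs of girth at least an absolute constant

Statements of the modules. Paper: /team-store/PAPER_CG_H9.md. Conventions of `Pool.Agent.LAG` and
`Pool.Agent.LLG`. `eb E A S` is the number of the pairs of `E` from `A` to `S`; the factor theorem
`FhmStmt` and the extremal violators `VioStmt` are in `Pool.Agent.Helper7_CG.Vio`.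
-/

set_option autoImplicit false

namespace Pool.Agent.CG

open SimpleGraph Pool.Agent.LAG Pool.Agent.LLG

/-! ### Weights of sets -/

/-- Number of the neighbours of `z` in `U`. -/
noncomputable def dg {W : Type} (Γ : SimpleGraph W) (U : Set W) (z : W) : ℕ :=
  {y | y ∈ U ∧ Γ.Adj z y}.ncard

/-- The fraction of the edges at `z` which do not cross the boundary of `U`. -/
noncomputable def uu {W : Type} (Γ : SimpleGraph W) (k : ℕ) (U : Set W) (z : W) : ℝ :=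
  open Classical in if z ∈ U then (dg Γ U z : ℝ) / k else 1 - (dg Γ U z : ℝ) / k

/-- Number of the vertices of `U` with less than `w` neighbours in `U`. -/
noncomputable def vp {W : Type} (Γ : SimpleGraph W) (w : ℕ) (U : Set W) : ℕ :=
  {z | z ∈ U ∧ dg Γ U z < w}.ncard

/-- The weight of `U`: a lower bound for the probability that the cluster of a vertex is `U`. -/
noncomputable def Wt {W : Type} [Fintype W] (Γ : SimpleGraph W) (k c w : ℕ) (κ : ℝ)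
    (U : Set W) : ℝ :=
  (∏ z : W, uu Γ k U z ^ c) *
    Real.exp (-(2 * (bd Γ U : ℝ) / k + Real.log k * ((vp Γ w U : ℝ) + κ * (U.ncard : ℝ))))

/-- Small sets span at most `D` ordered pairs per vertex. -/
def SpD {W : Type} (Γ : SimpleGraph W) (D m : ℕ) : Prop :=
  ∀ K : Set W, K.ncard < m → ins Γ K ≤ D * K.ncard

/-- `c` picks among the neighbours of every vertex. -/
abbrev Pk {W : Type} (Γ : SimpleGraph W) (c : ℕ) : Type := (z : W) → Fin c → Γ.neighborSet z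

/-- The graph of the picks. -/
def pg {W : Type} {Γ : SimpleGraph W} {c : ℕ} (π : Pk Γ c) : SimpleGraph W where
  Adj a b := (∃ i, (π a i : W) = b) ∨ ∃ i, (π b i : W) = a
  symm := ⟨fun _ _ h => h.symm⟩
  loopless := ⟨fun a h => by
    rcases h with ⟨i, hi⟩ | ⟨i, hi⟩ <;>
    · have h1 : Γ.Adj a (π a i : W) := (π a i).2
      rw [hi] at h1
      exact h1.ne rfl⟩

/-- The parameter `κ`. -/
noncomputable def kap (k c m D w : ℕ) : ℝ :=
  1 / (m : ℝ) + 2 * ((k : ℝ) ^ 2 * ((D : ℝ) / w) ^ c) ^ 2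

/-- MOOG: Moore bound in the double cover. -/
def MoogStmt : Prop := ∀ (V : Type) [Fintype V] (R : SimpleGraph V) (O : V → V → Prop) (d h : ℕ),
    (∀ x y, O x y → R.Adj x y) → (∀ x y, O x y → ¬ O y x) → Big R (2 * h) → 1 ≤ d → 1 ≤ h →
    SpD (dbl O) (2 * d) (d ^ h)

/-- CONN: number of connected sets of `t + 1` vertices which contain `u`. -/
def ConnStmt : Prop := ∀ (W : Type) [Fintype W] [DecidableEq W] (Γ : SimpleGraph W) (k t : ℕ)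
    (u : W), (∀ v, (Γ.neighborSet v).ncard ≤ k) →
    {K : Finset W | u ∈ K ∧ K.card = t + 1 ∧ (Γ.induce (K : Set W)).Connected}.ncard ≤
      k ^ (2 * t)

/-- PICK: expected number of components of the graph of the picks. -/
def PickStmt : Prop := ∀ (X : Type) [Fintype X] [DecidableEq X] (Γ : SimpleGraph X)
    (k c m D w : ℕ) [Fintype (Pk Γ c)], 1 ≤ c → 1 ≤ m → 1 ≤ w →
    (∀ v, 1 ≤ (Γ.neighborSet v).ncard ∧ (Γ.neighborSet v).ncard ≤ k) → SpD Γ D m →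
    (k : ℝ) ^ 2 * ((D : ℝ) / w) ^ c ≤ 1 / 2 →
    ∑ π : Pk Γ c, (cc (pg π) : ℝ) ≤ (Fintype.card (Pk Γ c) : ℝ) *
      (({v : X | (Γ.neighborSet v).ncard < w}.ncard : ℝ) + kap k c m D w * Fintype.card X)

/-- CLUC: probability that the cluster of the vertices of `U` is `U`. -/
def ClucStmt : Prop := ∀ (W : Type) [Fintype W] [DecidableEq W] (Γ : SimpleGraph W)
    (k c m D w : ℕ) [Fintype (Pk Γ c)], 2 ≤ k → 1 ≤ c → 1 ≤ m → 1 ≤ w →
    (∀ v, (Γ.neighborSet v).ncard = k) → SpD Γ D m → (k : ℝ) ^ 2 * ((D : ℝ) / w) ^ c ≤ 1 / 2 →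
    ∀ U : Finset W, (Γ.induce (U : Set W)).Connected →
    Wt Γ k c w (kap k c m D w) (U : Set W) ≤
      av (fun ω : Pk Γ c × (Sym2 W → Fin k) =>
        Set.indicator {ω | ∀ v ∈ U, {z | (pg ω.1 ⊔ opn Γ ω.2 1).Reachable v z} = (U : Set W)}
          (fun _ => (1 : ℝ)) ω)

/-- COUNTC: the weighted number of connected sets which contain a given vertex. -/
def CountcStmt : Prop := ∀ (W : Type) [Fintype W] [DecidableEq W] (Γ : SimpleGraph W)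
    (k c m D w : ℕ), 2 ≤ k → 1 ≤ c → 1 ≤ m → 1 ≤ w →
    (∀ v, (Γ.neighborSet v).ncard = k) → SpD Γ D m → (k : ℝ) ^ 2 * ((D : ℝ) / w) ^ c ≤ 1 / 2 →
    ∀ (v : W) (𝒰 : Finset (Finset W)),
    (∀ U ∈ 𝒰, v ∈ U ∧ (Γ.induce (U : Set W)).Connected) →
    ∑ U ∈ 𝒰, Wt Γ k c w (kap k c m D w) (U : Set W) ≤ 1

/-! ### The colouring of the arcs -/

/-- Groups of arcs and indices in the groups. The colour of an arc is `idx + τ (group)` for a
random `τ`. -/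
structure GS {V G : Type} {s : ℕ} [NeZero s] (O : V → V → Prop) (d : ℕ) (grp : V → V → G)
    (idx : V → V → Fin s) : Prop where
  inj : ∀ x y x' y', O x y → O x' y' → grp x y = grp x' y' → idx x y = idx x' y' →
    x = x' ∧ y = y'
  sh : ∀ x y x' y', O x y → O x' y' → grp x y = grp x' y' → x = x' ∨ y = y'
  dt : ∀ (τ : G → Fin s) (t : Fin s) (x : V), d ≤ {y | O x y ∧ idx x y + τ (grp x y) = t}.ncard
  dh : ∀ (τ : G → Fin s) (t : Fin s) (y : V), d ≤ {x | O x y ∧ idx x y + τ (grp x y) = t}.ncard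

/-- KON: existence of the groups (Koenig: `O` is a union of `k` permutations). -/
def KonStmt : Prop := ∀ (V : Type) [Fintype V] (O : V → V → Prop) (k s d : ℕ) [NeZero s],
    (∀ v, {w | O v w}.ncard = k ∧ {w | O w v}.ncard = k) → 2 * d * s ≤ k →
    ∃ (G : Type) (_ : Fintype G) (grp : V → V → G) (idx : V → V → Fin s), GS O d grp idx

/-- The configurations: shifts of the groups, selected arcs, numbers of the vertices. -/
abbrev Om (V G Ξ : Type) (s b : ℕ) : Type := (G → Fin s) × (Ξ → Fin 3) × (V → Fin b)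

/-- The data of one round (one side). -/
structure Rd (V G Ξ : Type) (s : ℕ) where
  /-- the digraph -/
  O : V → V → Prop
  /-- the group of an arc -/
  grp : V → V → G
  /-- the index of an arc in its group -/
  idx : V → V → Fin s
  /-- the candidates -/
  e : Ξ → Fin 3 → V × V
  /-- the allowed sinks -/
  al : Set V
  /-- the side -/
  sd : Bool

section round

variable {V G Ξ : Type} {s b : ℕ} [NeZero s]

/-- The arcs of colour `t`. -/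
def Rd.B (D : Rd V G Ξ s) (ω : Om V G Ξ s b) (t : Fin s) (x y : V) : Prop :=
  D.O x y ∧ D.idx x y + ω.1 (D.grp x y) = t

/-- The forced arcs of colour `t`. -/
def Rd.F (D : Rd V G Ξ s) (ω : Om V G Ξ s b) (t : Fin s) (x y : V) : Prop :=
  D.B ω t x y ∧ ∃ ξ, D.e ξ (ω.2.1 ξ) = (x, y)

/-- The sinks of colour `t` (on the side of `D`). -/
def Rd.Z (D : Rd V G Ξ s) (ω : Om V G Ξ s b) (t : Fin s) : Set V :=
  {v | v ∈ D.al ∧ (ω.2.2 v).val = 2 * t.val + D.sd.toNat}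

/-- The reversed round. -/
def Rd.rev (D : Rd V G Ξ s) : Rd V G Ξ s where
  O x y := D.O y x
  grp x y := D.grp y x
  idx x y := D.idx y x
  e ξ r := (D.e ξ r).swap
  al := D.al
  sd := !D.sd

/-- The conditions on the data of a round. -/
structure Rd.Ok (D : Rd V G Ξ s) (k d : ℕ) : Prop where
  reg : ∀ v, {w | D.O v w}.ncard = k ∧ {w | D.O w v}.ncard = k
  gs : GS D.O d D.grp D.idx
  eO : ∀ ξ r, D.O (D.e ξ r).1 (D.e ξ r).2
  ed : ∀ ξ r ξ' r', (ξ, r) ≠ (ξ', r') →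
    (D.e ξ r).1 ≠ (D.e ξ' r').1 ∧ (D.e ξ r).2 ≠ (D.e ξ' r').2

/-- Tails in `A` and heads in `S`, as a set of vertices of the double cover. -/
def tl (A S : Set V) : Set (V ⊕ V) := Sum.inl '' A ∪ Sum.inr '' S

/-- The violators. -/
def Rd.Ev (D : Rd V G Ξ s) (ω : Om V G Ξ s b) (t : Fin s) (k j : ℕ) (A S : Set V) : Prop :=
  (∀ x ∈ A, j ≤ {y | y ∈ S ∧ D.B ω t x y}.ncard) ∧
  (∀ x, x ∉ A → k < 2 * {y | y ∈ S ∧ D.O x y}.ncard → j ≤ {y | y ∉ S ∧ D.B ω t x y}.ncard) ∧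
  (∀ y ∈ S, j ≤ {x | x ∈ A ∧ D.B ω t x y}.ncard) ∧
  (∀ y, y ∉ S → k < 2 * {x | x ∈ A ∧ D.O x y}.ncard → j ≤ {x | x ∉ A ∧ D.B ω t x y}.ncard) ∧
  5 * j * S.ncard + eb (D.B ω t) A Sᶜ + (A ∩ D.Z ω t).ncard + 1 ≤
    5 * j * A.ncard + eb (D.F ω t) Aᶜ S

end round

/-- VIOD: if the condition of the factor theorem fails there is a connected violator. -/
def ViodStmt : Prop := ∀ (V G Ξ : Type) [Fintype V] (s b k j : ℕ) [NeZero s] (D : Rd V G Ξ s)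
    (ω : Om V G Ξ s b) (t : Fin s), 1 ≤ j → D.Ok k (6 * j) →
    (∃ A S : Set V, 5 * j * S.ncard + eb (D.B ω t) A Sᶜ + (A ∩ D.Z ω t).ncard <
      5 * j * A.ncard + eb (D.F ω t) Aᶜ S) →
    ∃ A S : Set V, ((dbl D.O).induce (tl A S)).Connected ∧ D.Ev ω t k j A S

/-- WIT: many arcs of colour `t` in disjoint sets of arcs. -/
def WitStmt : Prop := ∀ (V G ι : Type) [Fintype V] [Fintype G] (s d j : ℕ) [NeZero s]
    (O : V → V → Prop) (grp : V → V → G) (idx : V → V → Fin s) (t : Fin s) (Y : Finset ι)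
    (E : ι → Set (V × V)), GS O d grp idx → 1 ≤ j → (∀ z, ∀ e ∈ E z, O e.1 e.2) →
    (∀ z z', z ≠ z' → Disjoint (E z) (E z')) →
    ({τ : G → Fin s | ∀ z ∈ Y,
        j ≤ {e : V × V | e ∈ E z ∧ idx e.1 e.2 + τ (grp e.1 e.2) = t}.ncard}.ncard : ℝ) ≤
      (∏ z ∈ Y, (3 * ((E z).ncard : ℝ) / (j * s)) ^ j) * (Nat.card (G → Fin s) : ℝ)

/-- VIP: probability of the violation (exponential moments, `λ = 1 / 5`). -/
def VipStmt : Prop := ∀ (V G Ξ : Type) [Fintype V] [Fintype G] [Fintype Ξ] (s b k j : ℕ)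
    [NeZero s] (D : Rd V G Ξ s) (t : Fin s) (A S : Set V), 1 ≤ j → D.Ok k (6 * j) →
    12 * j * s ≤ k → 100 * k ≤ 1212 * j * s → 2 * s ≤ b →
    ({ω : Om V G Ξ s b | 5 * j * S.ncard + eb (D.B ω t) A Sᶜ + (A ∩ D.Z ω t).ncard + 1 ≤
        5 * j * A.ncard + eb (D.F ω t) Aᶜ S}.ncard : ℝ) ≤
      Real.exp (-((j : ℝ) / 10 * ((eb D.O A Sᶜ : ℝ) + eb D.O Aᶜ S) / k +
        18 / 100 * ((A ∩ D.al).ncard : ℝ) / b)) * (Nat.card (Om V G Ξ s b) : ℝ)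

/-- PSI: the inequality at one vertex. -/
def PsiStmt : Prop := ∀ (c k : ℕ) (u : ℝ), 1 ≤ c → 0 ≤ u → u ≤ 1 →
    Real.exp (-(25 * c * (1 - u))) * (min 1 (37 * u)) ^ (250 * c) ≤
      u ^ c * Real.exp (-(1 - u)) * Real.exp (-(9 * c * (1 - u))) ∧
    (1369 ^ 2 ≤ k → u ^ 2 * k ≤ 1 →
      Real.exp (-(25 * c * (1 - u))) * (min 1 (37 * u)) ^ (250 * c) ≤
        u ^ c * Real.exp (-(1 - u)) * Real.exp (-(9 * c * (1 - u))) * ((k : ℝ) ^ (61 * c))⁻¹)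

/-- The numerical conditions of PEV (`μ = exp (- M)`). -/
def NumP (k s c j b m D w q : ℕ) (M : ℝ) : Prop :=
  j = 1000 * c ∧ 1 ≤ c ∧ 12 * j * s ≤ k ∧ 100 * k ≤ 1212 * j * s ∧ 4 ≤ s ∧ 1 ≤ m ∧ 2 * s ≤ b ∧
  1369 ^ 2 ≤ k ∧ w = Nat.sqrt k + 1 ∧ 2 * D ≤ k ∧ 100 * q ≤ k ^ 2 ∧ q ≤ b ∧
  (k : ℝ) ^ 2 * ((D : ℝ) / w) ^ c ≤ 1 / 2 ∧ 1000 * (b : ℝ) * Real.log k * kap k c m D w ≤ 1 ∧
  1 ≤ M ∧ 100 * M * b ≤ m ∧ M ≤ 8 * c * w ∧ M ≤ 60 * c * Real.log k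

/-- The local conditions on one side. -/
def Sid {V : Type} (O : V → V → Prop) (k D m q : ℕ) (al : Set V) : Prop :=
  SpD (dbl O) D m ∧ ∀ U : Set (V ⊕ V), k ^ 2 * {u | u ∈ U ∧ bas u ∉ al}.ncard ≤
    4 * q * U.ncard + 3 * k * q * bd (dbl O) U

/-- PEV: probability of a violator. -/
def PevStmt : Prop := ∀ (V G Ξ : Type) [Fintype V] [Fintype G] [Fintype Ξ]
    (s b k c j m Dd w q : ℕ) (M : ℝ) [NeZero s] (D : Rd V G Ξ s) (t : Fin s) (A S : Set V),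
    NumP k s c j b m Dd w q M → D.Ok k (6 * j) → Sid D.O k Dd m q D.al →
    (tl A S).Nonempty →
    ({ω : Om V G Ξ s b | D.Ev ω t k j A S}.ncard : ℝ) ≤
      Real.exp (-M) * Wt (dbl D.O) k c w (kap k c m Dd w) (tl A S) *
        Real.exp (-(((tl A S).ncard : ℝ) / (50 * b))) * (Nat.card (Om V G Ξ s b) : ℝ)

/-- EVD: the coordinates on which a violator depends. -/
def EvdStmt : Prop := ∀ (V G Ξ : Type) [Fintype V] (s b k j : ℕ) [NeZero s] (D : Rd V G Ξ s)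
    (ω ω' : Om V G Ξ s b) (t : Fin s) (A S : Set V), 1 ≤ j →
    (∀ x y, D.O x y → (x ∈ A ∨ (∃ y' ∈ S, D.O x y') ∨ y ∈ S ∨ ∃ x' ∈ A, D.O x' y) →
      ω.1 (D.grp x y) = ω'.1 (D.grp x y)) →
    (∀ v ∈ A, ω.2.2 v = ω'.2.2 v) →
    (∀ ξ, (∃ r, (D.e ξ r).2 ∈ S) → ω.2.1 ξ = ω'.2.1 ξ) →
    D.Ev ω t k j A S → D.Ev ω' t k j A S

/-- The numerical conditions of RLLC. -/
def NumC (k s c j b m D w q n1 lm : ℕ) (η M : ℝ) : Prop :=
  NumP k s c j b m D w q M ∧ 0 ≤ η ∧ (lm : ℝ) ≤ 200 * (k : ℝ) ^ 2 * b ∧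
  4 * (s : ℝ) * (k : ℝ) ^ 2 * Real.exp (-M) + 4 * s * η ≤ 1 / (400 * (k : ℝ) ^ 2 * b) ∧
  8 * (s : ℝ) * Real.exp (-M) + 32 * n1 * (s : ℝ) ^ 2 / (b : ℝ) ^ 2 ≤ 1 / (400 * (b : ℝ)) ∧
  24 * (s : ℝ) * Real.exp (-M) ≤ 1 / (400 * (b : ℝ))

/-- RLLC: the local lemma of one round. `(H1)` and `(H2)` are the conditions of FHM. -/
def RllcStmt : Prop := ∀ (V : Type) [Fintype V] (O : V → V → Prop)
    (k s c j b m D w q n1 lm : ℕ) [NeZero s] (η M : ℝ) (al : Set V) (cf : V → V → Prop)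
    (J : Type) [Fintype J] (ev : J → Finset (V × V)) (Ξ : Type) [Fintype Ξ]
    (e : Ξ → Fin 3 → V × V), NumC k s c j b m D w q n1 lm η M →
    (∀ v, {w | O v w}.ncard = k ∧ {w | O w v}.ncard = k) →
    Sid O k D m q al → Sid (fun x y => O y x) k D m q al →
    (∀ x y, cf x y → cf y x) → (∀ v, {x | cf x v}.ncard ≤ n1) →
    (∀ i, (∀ a ∈ ev i, O a.1 a.2) ∧ (ev i).card ≤ lm ∧ 2 ≤ (ev i).card) →
    (∀ a : V × V, ∀ J' : Finset J, (∀ i ∈ J', a ∈ ev i) →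
      ∑ i ∈ J', ((1 : ℝ) / s) ^ ((ev i).card - 1) ≤ η) →
    (∀ ξ r, O (e ξ r).1 (e ξ r).2) →
    (∀ ξ r ξ' r', (ξ, r) ≠ (ξ', r') → (e ξ r).1 ≠ (e ξ' r').1 ∧ (e ξ r).2 ≠ (e ξ' r').2) →
    ∃ (col : V → V → Fin s) (lab : V → Option (Fin s × Bool)) (sel : Ξ → Fin 3),
      (∀ v, lab v ≠ none → v ∈ al) ∧
      (∀ u v, u ≠ v → cf u v → lab u = none ∨ lab v = none) ∧
      (∀ i, ¬ ∃ t, ∀ a ∈ ev i, col a.1 a.2 = t) ∧
      (∀ (t : Fin s) (A S : Set V),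
        5 * j * A.ncard + eb (fun x y => O x y ∧ col x y = t ∧ ∃ ξ, e ξ (sel ξ) = (x, y)) Aᶜ S ≤
          5 * j * S.ncard + eb (fun x y => O x y ∧ col x y = t) A Sᶜ +
            (A ∩ {v | lab v = some (t, true)}).ncard) ∧
      (∀ (t : Fin s) (A S : Set V),
        5 * j * S.ncard + eb (fun x y => O x y ∧ col x y = t ∧ ∃ ξ, e ξ (sel ξ) = (x, y)) A Sᶜ ≤
          5 * j * A.ncard + eb (fun x y => O x y ∧ col x y = t) Aᶜ S +
            (S ∩ {v | lab v = some (t, false)}).ncard)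

/-! ### Factors -/

/-- PETC: a graph of maximum degree `4 T` is a union of `T` graphs of maximum degree four. -/
def PetcStmt : Prop := ∀ (V : Type) [Fintype V] (G : SimpleGraph V) (T : ℕ),
    (∀ v, (G.neighborSet v).ncard ≤ 4 * T) →
    ∃ H : Fin T → SimpleGraph V, (∀ t, H t ≤ G) ∧ (∀ t t', t ≠ t' → Disjoint (H t) (H t')) ∧
      (⨆ t, H t) = G ∧ ∀ t v, ((H t).neighborSet v).ncard ≤ 4

/-- MATCHC: the graphs of maximum degree four of one round, the sinks, the forced edges. -/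
def MatchcStmt : Prop := ∀ (V : Type) [Fintype V] (A R : SimpleGraph V) (Q : Set V)
    (k s T c j b d w q h N n : ℕ) (η M : ℝ), 1 ≤ d →
    NumC k s c j b (d ^ h) (2 * d) w q ((2 * k + 3) ^ 2000) (max N n) η M →
    NumE k s q h N n η → 4 * T = 10 * j * s → Even j → Stt A R Q k (2 * h) q →
    (∀ v, (R.neighborSet v).ncard = 2 * k) →
    ∀ (Ξ : Type) [Fintype Ξ] (ce : Ξ → Fin 3 → V × V),
    (∀ ξ r, R.Adj (ce ξ r).1 (ce ξ r).2) →
    (∀ ξ r ξ' r', (ξ, r) ≠ (ξ', r') → (ce ξ r).1 ≠ (ce ξ' r').1 ∧ (ce ξ r).1 ≠ (ce ξ' r').2 ∧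
      (ce ξ r).2 ≠ (ce ξ' r').1 ∧ (ce ξ r).2 ≠ (ce ξ' r').2) →
    ∃ (H : Fin T → SimpleGraph V) (Z : Set V),
      (∀ t, H t ≤ R) ∧ (∀ t t', t ≠ t' → Disjoint (H t) (H t')) ∧
      (∀ t v, ((H t).neighborSet v).ncard ≤ 4) ∧
      (∀ v, v ∉ Z → ∑ t, ((H t).neighborSet v).ncard = 4 * T) ∧
      (∀ v, 4 * T ≤ (∑ t, ((H t).neighborSet v).ncard) + 1) ∧
      (∀ t, Big (H t) N) ∧ (∀ t z, IsP (H t) z n → ¬ Heavy A Q z n) ∧
      (∀ x ∈ Z, ∀ y ∈ Z, x ≠ y → ¬ near A 2000 x y) ∧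
      (∀ x ∈ Z, ∀ y ∈ Q, ¬ near A 90 x y) ∧
      ∀ ξ, ∃ r t, (H t).Adj (ce ξ r).1 (ce ξ r).2

/-! ### States and rounds -/

/-- The states: `Q 0` old touched vertices, `Q 1`, `Q 2`, `Q 3` those of the last round. -/
structure SttC {V : Type} (A R : SimpleGraph V) (Q : Fin 4 → Set V) (k g : ℕ) : Prop where
  le : R ≤ A
  m2 : ∀ a b, (A \ R).Reachable a b → near (A \ R) 2 a b
  m3 : ∀ a, {b | (A \ R).Reachable a b}.ncard ≤ 3
  big : Big A g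
  deg : ∀ v, (R.neighborSet v).ncard ≤ 2 * k
  sep : ∀ i j, ∀ x ∈ Q i, ∀ y ∈ Q j, x ≠ y → ¬ near A 82 x y
  s0 : ∀ x ∈ Q 0, ∀ y ∈ Q 0, x ≠ y → ¬ near A 186 x y
  s1 : ∀ i, i ≠ 0 → ∀ x ∈ Q i, ∀ y ∈ Q i, x ≠ y → ¬ near A 400 x y

/-- Every state has the conclusion. -/
def GoodC (k g : ℕ) : Prop := ∀ (V : Type) [Fintype V] (A R : SimpleGraph V)
    (Q : Fin 4 → Set V), SttC A R Q k g → Cnc A R (⋃ i, Q i) k

/-- Every regular state has the conclusion. -/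
def GoodCR (k g : ℕ) : Prop := ∀ (V : Type) [Fintype V] (A R : SimpleGraph V)
    (Q : Fin 4 → Set V), SttC A R Q k g → (∀ v, (R.neighborSet v).ncard = 2 * k) →
    Cnc A R (⋃ i, Q i) k

/-- BALC: the states are states of LLG with `q = 4`. -/
def BalcStmt : Prop := ∀ (V : Type) [Fintype V] (A R : SimpleGraph V) (Q : Fin 4 → Set V)
    (k g : ℕ), 400 ≤ g → SttC A R Q k g → Stt A R (⋃ i, Q i) k g 4

/-- SG: states of LLG with `q = 1` are states. -/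
def SgStmt : Prop := ∀ k g : ℕ, 400 ≤ g → GoodC k g → Good k g 1

/-- CAND: the candidates. If one of the three candidates of every `ξ` is removed from `A` then the
touched vertices are pairwise not near 186. -/
def CandStmt : Prop := ∀ (V : Type) [Fintype V] (A R : SimpleGraph V) (Q : Fin 4 → Set V)
    (k g : ℕ), 400 ≤ g → SttC A R Q k g →
    ∃ (Ξ : Type) (_ : Fintype Ξ) (ce : Ξ → Fin 3 → V × V),
      (∀ ξ r, R.Adj (ce ξ r).1 (ce ξ r).2) ∧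
      (∀ ξ r ξ' r', (ξ, r) ≠ (ξ', r') → (ce ξ r).1 ≠ (ce ξ' r').1 ∧
        (ce ξ r).1 ≠ (ce ξ' r').2 ∧ (ce ξ r).2 ≠ (ce ξ' r').1 ∧ (ce ξ r).2 ≠ (ce ξ' r').2) ∧
      ∀ P : SimpleGraph V, (∀ ξ, ∃ r, P.Adj (ce ξ r).1 (ce ξ r).2) →
        ∀ x ∈ ⋃ i, Q i, ∀ y ∈ ⋃ i, Q i, x ≠ y → ¬ near (A \ P) 186 x y

/-- PULLC: it suffices to consider regular states. -/
def PullcStmt : Prop := ∀ k g : ℕ, 1 ≤ k → 400 ≤ g → GoodCR k g → GoodC k g

/-- The numerical conditions of one round. -/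
def NumRC (k T g : ℕ) : Prop := 2 * T < k ∧ ∃ (s c j b d w h N n hH a ℓ Tm L Nc : ℕ) (η M : ℝ),
  2 * h ≤ g ∧ 2050 ≤ h ∧ 1 ≤ d ∧ 4 * T = 10 * j * s ∧ Even j ∧ 2 * hH ≤ N ∧ s ≠ 0 ∧
  NumC k s c j b (d ^ h) (2 * d) w 4 ((2 * k + 3) ^ 2000) (max N n) η M ∧
  NumE k s 4 h N n η ∧ NumM k T hH n a ℓ Tm L Nc

/-- STEPC: one round. -/
def StepcStmt : Prop := ∀ k T g : ℕ, NumRC k T g → GoodC (k - 2 * T) g → GoodCR k g

/-- NUMRC: the numbers of one round. -/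
def NumrcStmt : Prop := ∃ g0 Kc : ℕ, 8000 ≤ g0 ∧ ∀ k, Kc ≤ k → ∃ T, 1 ≤ T ∧ NumRC k T g0

/-! ### The theorem -/

/-- TOPC: graphs of large (constant) girth. -/
def TopcStmt : Prop := ∃ g0 : ℕ, ∀ (V : Type) [Fintype V] (G : SimpleGraph V) (Δ : ℕ),
    (∀ v, (G.neighborSet v).ncard ≤ Δ) → Big G g0 →
    ∃ F : Fin (Δ / 2 + 1) → SimpleGraph V,
      (∀ i, (F i).IsAcyclic ∧ ∀ v, ((F i).neighborSet v).ncard ≤ 2) ∧ (⨆ i, F i) = G

end Pool.Agent.CG
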