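import Pool.Agent.Helper9_CG.Stmt

/-!
# CG: module EVD (the coordinates on which a violator depends)
-/

set_option autoImplicit false

namespace Pool.Agent.CG

open SimpleGraph Pool.Agent.LAG Pool.Agent.LLG

namespace H9

theorem evd : EvdStmt := by
  intro V G Ξ _ s b k j _ D ω ω' t A S hj h1 h2 h3 hE
  have hB : ∀ x y, (x ∈ A ∨ (∃ y' ∈ S, D.O x y') ∨ y ∈ S ∨ ∃ x' ∈ A, D.O x' y) →
      (D.B ω t x y ↔ D.B ω' t x y) := by
    intro x y hxy
    unfold Rd.B
    constructor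
    · rintro ⟨ho, hc⟩
      exact ⟨ho, by rw [← h1 x y ho hxy]; exact hc⟩
    · rintro ⟨ho, hc⟩
      exact ⟨ho, by rw [h1 x y ho hxy]; exact hc⟩
  have hF : ∀ x y, y ∈ S → (D.F ω t x y ↔ D.F ω' t x y) := by
    intro x y hy
    unfold Rd.F
    rw [hB x y (Or.inr (Or.inr (Or.inl hy)))]
    refine and_congr_right fun _ => ?_
    constructor
    · rintro ⟨ξ, hξ⟩
      refine ⟨ξ, ?_⟩
      rw [← h3 ξ ⟨ω.2.1 ξ, by rw [hξ]; exact hy⟩]
      exact hξ
    · rintro ⟨ξ, hξ⟩
      refine ⟨ξ, ?_⟩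
      rw [h3 ξ ⟨ω'.2.1 ξ, by rw [hξ]; exact hy⟩]
      exact hξ
  have hne : ∀ P : V → Prop, k < 2 * {y | P y}.ncard → ∃ y, P y := by
    intro P hP
    by_contra hc
    have : {y | P y} = ∅ := by
      ext y
      simp only [Set.mem_setOf_eq, Set.mem_empty_iff_false, iff_false]
      exact fun hy => hc ⟨y, hy⟩
    rw [this, Set.ncard_empty] at hP
    omega
  obtain ⟨e1, e2, e3, e4, e5⟩ := hE
  refine ⟨?_, ?_, ?_, ?_, ?_⟩
  · intro x hx
    have : {y | y ∈ S ∧ D.B ω' t x y} = {y | y ∈ S ∧ D.B ω t x y} := by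
      ext y
      exact and_congr_right fun _ => (hB x y (Or.inl hx)).symm
    rw [this]
    exact e1 x hx
  · intro x hx hk
    obtain ⟨y', hy', ho'⟩ := hne _ hk
    have : {y | y ∉ S ∧ D.B ω' t x y} = {y | y ∉ S ∧ D.B ω t x y} := by
      ext y
      exact and_congr_right fun _ => (hB x y (Or.inr (Or.inl ⟨y', hy', ho'⟩))).symm
    rw [this]
    exact e2 x hx hk
  · intro y hy
    have : {x | x ∈ A ∧ D.B ω' t x y} = {x | x ∈ A ∧ D.B ω t x y} := by
      ext x
      exact and_congr_right fun hx => (hB x y (Or.inl hx)).symm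
    rw [this]
    exact e3 y hy
  · intro y hy hk
    obtain ⟨x', hx', ho'⟩ := hne _ hk
    have : {x | x ∉ A ∧ D.B ω' t x y} = {x | x ∉ A ∧ D.B ω t x y} := by
      ext x
      exact and_congr_right fun _ => (hB x y (Or.inr (Or.inr (Or.inr ⟨x', hx', ho'⟩)))).symm
    rw [this]
    exact e4 y hy hk
  · have a1 : eb (D.B ω' t) A Sᶜ = eb (D.B ω t) A Sᶜ := by
      unfold eb
      congr 1
      ext p
      exact and_congr_right fun hp => and_congr_right fun _ => (hB p.1 p.2 (Or.inl hp)).symm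
    have a2 : eb (D.F ω' t) Aᶜ S = eb (D.F ω t) Aᶜ S := by
      unfold eb
      congr 1
      ext p
      exact and_congr_right fun _ => and_congr_right fun hp => (hF p.1 p.2 hp).symm
    have a3 : A ∩ D.Z ω' t = A ∩ D.Z ω t := by
      ext v
      refine and_congr_right fun hv => ?_
      unfold Rd.Z
      simp only [Set.mem_setOf_eq, h2 v hv]
    rw [a1, a2, a3]
    exact e5

end H9

end Pool.Agent.CG
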