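import Pool.Agent.Helper9_CG.NumD

/-!
# CG: module NUMRC
-/

set_option autoImplicit false
set_option exponentiation.threshold 100

namespace Pool.Agent.CG.H9

open Pool.Agent.LAG Pool.Agent.LLG

theorem numrc (hI : NumiStmt) : NumrcStmt := by
  obtain ⟨e, he⟩ : ∃ e, e = 20000 := ⟨_, rfl⟩
  obtain ⟨h, hh⟩ : ∃ h, h = 10 ^ 8 := ⟨_, rfl⟩
  refine ⟨2 * h, 2 ^ (8 * e), ?_, ?_⟩
  · rw [hh]; norm_num
  intro k hk
  obtain ⟨l, hl⟩ : ∃ l, l = Nat.log 2 k := ⟨_, rfl⟩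
  obtain ⟨t, htl⟩ : ∃ t, t = l / 8 := ⟨_, rfl⟩
  have hle : 8 * e ≤ l := by
    rw [hl]
    exact Nat.le_log_of_pow_le (by norm_num) hk
  have ht : 20000 ≤ t := by omega
  have hk0 : k ≠ 0 := by
    have : 0 < k := lt_of_lt_of_le (by positivity) hk
    omega
  clear hk
  have hk1 : 2 ^ (8 * t) ≤ k := by
    refine le_trans (Nat.pow_le_pow_right (by norm_num) (show 8 * t ≤ l by omega)) ?_
    rw [hl]
    exact Nat.pow_log_le_self 2 hk0
  have hk2 : k < 2 ^ (8 * t + 8) := by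
    refine lt_of_lt_of_le (Nat.lt_pow_succ_log_self (by norm_num : 1 < 2) k) ?_
    rw [← hl]
    exact Nat.pow_le_pow_right (by norm_num) (by omega)
  have hkb : 10 ^ 12 ≤ k := by
    refine le_trans ?_ hk1
    have : 2 ^ 40 ≤ 2 ^ (8 * t) := Nat.pow_le_pow_right (by norm_num) (by omega)
    exact le_trans (by norm_num) this
  obtain ⟨s, hs⟩ : ∃ s, s = k / (12 * 4100000) := ⟨_, rfl⟩
  have hpH : 2 * pH k = 320000 * (l + 10) := by
    unfold pH
    rw [← hl]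
    omega
  have hpn : pn k = 40000 * (l + 1) := by
    unfold pn
    rw [← hl]
  have hT1 : 1 ≤ 10250000 * s := by omega
  have hTk : 10250000 * s ≤ k := by omega
  refine ⟨10250000 * s, hT1, by omega, s, 4100, 4100000, (2 * k + 3) ^ 2003, 2 ^ (t - 2),
    Nat.sqrt k + 1, h, 2 * pH k, pn k, pH k, _, _, _, _, _, ((2 : ℝ) ^ (17000 * t))⁻¹,
    2100 * Real.log k, le_rfl, ?_, Nat.one_le_two_pow, by ring, by decide, le_rfl, by omega,
    ?_, ?_, numM_gen hI k (10250000 * s) hT1 hTk⟩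
  · rw [hh]; norm_num
  · refine numC k s t h _ _ _ _ _ _ _ _ _ ht hk1 hk2 hs hh rfl rfl rfl rfl rfl rfl rfl rfl ?_
    rw [hpH, hpn]
    exact max_le (by omega) (by omega)
  · refine numE k s t h _ _ ht hk1 hk2 hs hh ?_ ?_ ?_ ?_
    · rw [hpH]; omega
    · rw [hpH]; omega
    · rw [hpn]; omega
    · rw [hpn]; omega

end Pool.Agent.CG.H9
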