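import Pool.Agent.Helper9_CG.All0
import Pool.Agent.Helper9_CG.Evd
import Pool.Agent.Helper9_CG.Countc
import Pool.Agent.Helper9_CG.Numrc

/-!
# CG: the theorem
-/

set_option autoImplicit false

namespace Pool.Agent.CG.H9

/-- Graphs of girth at least an absolute constant. -/
theorem topc : TopcStmt := topc0 countc evd numrc

end Pool.Agent.CG.H9
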