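import Pool.Agent.Helper9_CG.Sg
import Pool.Agent.Helper7_CG.VioC
import Pool.Agent.Helper7_CG.Psi
import Pool.Agent.Helper7_CG.Wit
import Pool.Agent.Helper53_CG.Vip
import Pool.Agent.Helper53_CG.Stepc
import Pool.Agent.Helper53_CG.Mach9
import Pool.Agent.Helper26_CG.Kon
import Pool.Agent.Helper26_CG.Pev
import Pool.Agent.Helper31_CG.Rllc
import Pool.Agent.Helper37_CG.Conn
import Pool.Agent.Helper37_CG.Topc
import Pool.Agent.Helper46_CG.Match
import Pool.Agent.Helper47_CG.Balc
import Pool.Agent.Helper48_CG.Pullc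
import Pool.Agent.Helper61_CG.Petc
import Pool.Agent.Helper68_CG.Cluc
import Pool.Agent.Helper81_CG.Pick
import Pool.Agent.Helper11_CG.Moog
import Pool.Agent.Helper15_CG.Cand
import Pool.Agent.Helper7_LLG.Base
import Pool.Agent.Helper7_LLG.Hcnt
import Pool.Agent.Helper7_LLG.Cycc
import Pool.Agent.Helper10_LLG.Evs
import Pool.Agent.Helper10_LLG.Numi
import Pool.Agent.Helper48_LLG.Start
import Pool.Agent.Helper48_LLG.Jed
import Pool.Agent.Helper48_LLG.Ori
import Pool.Agent.Helper56_LLG.Den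
import Pool.Agent.Helper81_LLG.Lllw
import Pool.Agent.Helper94_LLG.Spr0

/-!
# CG: assembly
-/

set_option autoImplicit false

namespace Pool.Agent.CG.H9

open Pool.Agent.LLG

theorem topc0 (hCount : ClucStmt → CountcStmt) (hEvd : EvdStmt) (hNum : NumiStmt → NumrcStmt) :
    TopcStmt :=
  H37.topc
    (H53.stepc
      (H46.matchc
        (H31.rllc H7.viod (H26.pev H7.wit H53.vip H7.psi) hEvd
          (hCount (H68.cluc (H81.pick H37.conn) LLG.H94.spr0)) H26.kon LLG.H81.lllw)
        H11.moog LLG.H56.den (LLG.H10.evs LLG.H7.hcnt LLG.H7.cycc) LLG.H48.ori H61.petc)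
      LLG.H48.jed LLG.H53.mach9 H15.cand H47.balc)
    H48.pullc LLG.H7.base LLG.H48.start (hNum LLG.H10.numi) H47.balc sg

end Pool.Agent.CG.H9
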