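import Pool.Agent.Helper9_CG.Stmt
import Pool.Agent.Helper70_LLG.Numm

/-!
# CG: numbers of one round, part A (NumM and NumE)
-/

set_option autoImplicit false
set_option exponentiation.threshold 100

namespace Pool.Agent.CG.H9

open Pool.Agent.LAG Pool.Agent.LLG Pool.Agent.LLG.H70

/-- NumM for all `T ≤ k`. -/
theorem numM_gen (h : NumiStmt) (k T : ℕ) (hT : 1 ≤ T) (hTk : T ≤ k) :
    NumM k T (pH k) (pn k) (2 ^ 43 * ((2 * k + 3) ^ 2003 + 2) ^ 24)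
      (2 ^ 12 * ((2 * k + 3) ^ 2003 + 2)) (2 ^ 45 * ((2 * k + 3) ^ 2003 + 2) ^ 24)
      (2 ^ 36 * ((2 * k + 3) ^ 2003 + 2) ^ 23) (128 * T * (2 * k + 3) ^ 2000) := by
  have hlog : Nat.log 2 k ≤ k := Nat.log_le_self 2 k
  have hX1 : 5 ≤ (2 * k + 3) ^ 2000 :=
    le_trans (show 5 ≤ 2 * k + 3 by omega) (Nat.le_self_pow (by norm_num) _)
  have hfin := fin_gen k T (pn k) (Nat.log 2 k) ((2 * k + 3) ^ 2000) hT hTk hlog rfl hX1
    (2 ^ 12) (2 ^ 45) rfl rfl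
  have hsp := pow_split (2 * k + 3) 2000
  have hsp' : (2 * k + 3) * (2 * k + 3) * ((2 * k + 3) * (2 * k + 3) ^ 2000) =
      (2 * k + 3) ^ 2003 := hsp.symm
  rw [hsp'] at hfin
  have hself : (2 * k + 3) ^ 2003 + 2 ≤ ((2 * k + 3) ^ 2003 + 2) ^ 21 :=
    Nat.le_self_pow (by norm_num) _
  have hself24 : (2 * k + 3) ^ 2003 + 2 ≤ ((2 * k + 3) ^ 2003 + 2) ^ 24 :=
    Nat.le_self_pow (by norm_num) _
  have hD : (2 * k + 3) ^ 2003 + 2 ≤ (2 * k + 3) ^ 2004 := D_le_gen k 2003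
  have hbig : 2 ^ 273 * ((2 * k + 3) ^ 2003 + 2) ^ 122 ≤ 3 ^ (pH k) := by
    refine big_pow_gen k _ (Nat.log 2 k + 3) (pH k) 2004 (two_k_three k) hD 11 7 22857
      (Nat.log 2 k + 10) (by norm_num) 273 122 ?_ ?_
    · clear hD hself hself24 hsp hsp' hfin hX1
      omega
    · clear hD hself hself24 hsp hsp' hfin hX1
      unfold pH
      omega
  refine ⟨?_, hT, ?_, ?_, ?_, le_of_eq rfl, ?_⟩
  · exact h ((2 * k + 3) ^ 2003) (pH k) (T * (2 * k + 3) ^ 2000) hbig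
      (hfin.1.trans hself)
  · unfold pn
    generalize Nat.log 2 k = l
    clear hD hself hself24 hsp hsp' hfin hX1 hbig
    omega
  · rw [← mul_assoc]
    exact le_of_eq rfl
  · exact hfin.2.1.trans (Nat.mul_le_mul_left _ hself24)
  · exact hfin.2.2

end Pool.Agent.CG.H9
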