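import Pool.Agent.Helper9_CG.Stmt

/-!
# CG: numbers of one round, part B (NumE)
-/

set_option autoImplicit false
set_option exponentiation.threshold 100

namespace Pool.Agent.CG.H9

open Pool.Agent.LAG Pool.Agent.LLG

theorem exp1 (t N h : ℕ) (ht : 20000 ≤ t) (hN : N ≤ 320000 * (8 * t + 17)) (hh : h = 10 ^ 8) :
    1 + 2 * (t + 30) + 27 * N + (17000 * t + 1) ≤ (8 * t + 1) * h := by
  subst hh
  omega

theorem part1 (k s t N h : ℕ) (ht : 20000 ≤ t) (hk1 : 2 ^ (8 * t) ≤ k)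
    (hs : (2 * k : ℝ) / s ≤ 2 ^ 27) (hN : N ≤ 320000 * (8 * t + 17)) (hh : h = 10 ^ 8) :
    2 * (N : ℝ) ^ 2 * ((2 * k : ℝ) / s) ^ N * ((2 * k : ℝ) ^ h)⁻¹ ≤
      ((2 : ℝ) ^ (17000 * t))⁻¹ / 2 := by
  have hk0 : (0 : ℝ) < k := by
    have : 0 < k := lt_of_lt_of_le (by positivity) hk1
    exact_mod_cast this
  have e1 := exp1 t N h ht hN hh
  have h1 : ((2 * k : ℝ) / s) ^ N ≤ 2 ^ (27 * N) := by
    rw [pow_mul]
    exact pow_le_pow_left₀ (by positivity) hs N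
  have h2 : (2 : ℝ) ^ ((8 * t + 1) * h) ≤ (2 * k : ℝ) ^ h := by
    rw [pow_mul]
    refine pow_le_pow_left₀ (by positivity) ?_ h
    have : (2 : ℝ) ^ (8 * t) ≤ k := by exact_mod_cast hk1
    rw [pow_succ]
    linarith
  have h3 : (N : ℝ) ≤ 2 ^ (t + 30) := by
    have h31 : t < 2 ^ t := Nat.lt_two_pow_self
    have h32 : N ≤ 2 ^ (t + 30) := by
      have h33 : 2 ^ (t + 30) = 2 ^ t * 2 ^ 30 := by rw [← pow_add]
      rw [h33]
      omega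
    exact_mod_cast h32
  have h3' : (N : ℝ) ^ 2 ≤ 2 ^ (2 * (t + 30)) := by
    rw [mul_comm 2, pow_mul]
    exact pow_le_pow_left₀ (by positivity) h3 2
  have hY : (0 : ℝ) < (2 * k : ℝ) ^ h := by positivity
  have h5 : 2 * (N : ℝ) ^ 2 * ((2 * k : ℝ) / s) ^ N * ((2 : ℝ) ^ (17000 * t) * 2) ≤
      (2 * k : ℝ) ^ h := by
    calc 2 * (N : ℝ) ^ 2 * ((2 * k : ℝ) / s) ^ N * ((2 : ℝ) ^ (17000 * t) * 2)
        ≤ 2 ^ 1 * 2 ^ (2 * (t + 30)) * 2 ^ (27 * N) * 2 ^ (17000 * t + 1) := by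
          rw [pow_succ (2 : ℝ) (17000 * t), pow_one]
          gcongr
      _ = 2 ^ (1 + 2 * (t + 30) + 27 * N + (17000 * t + 1)) := by
          rw [pow_add _ _ (17000 * t + 1), pow_add _ _ (27 * N), pow_add _ 1]
      _ ≤ 2 ^ ((8 * t + 1) * h) := pow_le_pow_right₀ (by norm_num) e1
      _ ≤ (2 * k : ℝ) ^ h := h2
  rw [← div_eq_mul_inv, div_le_iff₀ hY]
  have hZ : (0 : ℝ) < (2 : ℝ) ^ (17000 * t) := by positivity
  generalize (2 : ℝ) ^ (17000 * t) = Z at h5 hZ ⊢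
  generalize (2 * k : ℝ) ^ h = Y at h5 hY ⊢
  generalize 2 * (N : ℝ) ^ 2 * ((2 * k : ℝ) / s) ^ N = X at h5 ⊢
  rw [inv_eq_one_div, div_div, one_div, ← div_eq_inv_mul, le_div_iff₀ (by positivity)]
  exact h5

theorem exp2 (t e n : ℕ) (ht : 20000 ≤ t) (hn : n ≤ 320000 * (t + 1)) (he : 10 * (8 * t + 1) ≤ e) :
    1 + (t + 20) + (8 * t + 8) + 28 * n + (17000 * t + 1) ≤ (8 * t - 1) * e := by
  have h1 : (8 * t - 1) * (10 * (8 * t + 1)) ≤ (8 * t - 1) * e := Nat.mul_le_mul_left _ he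
  refine le_trans ?_ h1
  obtain ⟨u, rfl⟩ : ∃ u, t = u + 20000 := ⟨t - 20000, by omega⟩
  have h2 : 8 * (u + 20000) - 1 = 8 * u + 159999 := by omega
  rw [h2]
  nlinarith

theorem part2 (k s t n : ℕ) (ht : 20000 ≤ t) (hk1 : 2 ^ (8 * t) ≤ k) (hk2 : k < 2 ^ (8 * t + 8))
    (hs : (4 * k : ℝ) / s ≤ 2 ^ 28) (hsk : s ≤ k) (hn : n ≤ 320000 * (t + 1))
    (hn2 : 40000 * (8 * t + 1) ≤ n) :
    2 * (n : ℝ) * s * ((4 * k : ℝ) / s) ^ n * (((4 : ℕ) : ℝ) / (2 * k)) ^ (n / 4000) ≤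
      ((2 : ℝ) ^ (17000 * t))⁻¹ / 2 := by
  have hk0 : (0 : ℝ) < k := by
    have : 0 < k := lt_of_lt_of_le (by positivity) hk1
    exact_mod_cast this
  obtain ⟨e, he⟩ : ∃ e, e = n / 4000 := ⟨_, rfl⟩
  have he' : 10 * (8 * t + 1) ≤ e := by omega
  rw [← he]
  have e1 := exp2 t e n ht hn he'
  have h1 : ((4 * k : ℝ) / s) ^ n ≤ 2 ^ (28 * n) := by
    rw [pow_mul]
    exact pow_le_pow_left₀ (by positivity) hs n
  have h2 : (((4 : ℕ) : ℝ) / (2 * k)) ^ e ≤ ((2 : ℝ) ^ ((8 * t - 1) * e))⁻¹ := by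
    rw [pow_mul, ← inv_pow]
    refine pow_le_pow_left₀ (by positivity) ?_ e
    rw [div_le_iff₀ (by positivity), ← div_eq_inv_mul, le_div_iff₀ (by positivity)]
    have h22 : (2 : ℝ) ^ (8 * t) ≤ k := by exact_mod_cast hk1
    have h23 : (2 : ℝ) ^ (8 * t) = 2 ^ (8 * t - 1) * 2 := by
      rw [← pow_succ]
      congr 1
      omega
    rw [h23] at h22
    push_cast
    linarith
  have h3 : (n : ℝ) ≤ 2 ^ (t + 20) := by
    have h31 : t < 2 ^ t := Nat.lt_two_pow_self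
    have h32 : n ≤ 2 ^ (t + 20) := by
      have h33 : 2 ^ (t + 20) = 2 ^ t * 2 ^ 20 := by rw [← pow_add]
      rw [h33]
      omega
    exact_mod_cast h32
  have h6 : (s : ℝ) ≤ 2 ^ (8 * t + 8) := by exact_mod_cast hsk.trans hk2.le
  have hY : (0 : ℝ) < (2 : ℝ) ^ ((8 * t - 1) * e) := by positivity
  have h5 : 2 * (n : ℝ) * s * ((4 * k : ℝ) / s) ^ n * ((2 : ℝ) ^ (17000 * t) * 2) ≤
      2 ^ ((8 * t - 1) * e) := by
    calc 2 * (n : ℝ) * s * ((4 * k : ℝ) / s) ^ n * ((2 : ℝ) ^ (17000 * t) * 2)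
        ≤ 2 ^ 1 * 2 ^ (t + 20) * 2 ^ (8 * t + 8) * 2 ^ (28 * n) * 2 ^ (17000 * t + 1) := by
          rw [pow_succ (2 : ℝ) (17000 * t), pow_one]
          gcongr
      _ = 2 ^ (1 + (t + 20) + (8 * t + 8) + 28 * n + (17000 * t + 1)) := by
          rw [pow_add _ _ (17000 * t + 1), pow_add _ _ (28 * n), pow_add _ _ (8 * t + 8),
            pow_add _ 1]
      _ ≤ 2 ^ ((8 * t - 1) * e) := pow_le_pow_right₀ (by norm_num) e1
  have hX : (0 : ℝ) ≤ 2 * (n : ℝ) * s * ((4 * k : ℝ) / s) ^ n := by positivity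
  have hZ : (0 : ℝ) < (2 : ℝ) ^ (17000 * t) := by positivity
  generalize (2 : ℝ) ^ (17000 * t) = Z at h5 hZ ⊢
  generalize 2 * (n : ℝ) * s * ((4 * k : ℝ) / s) ^ n = X at h5 hX ⊢
  generalize (2 : ℝ) ^ ((8 * t - 1) * e) = Y at h2 h5 hY ⊢
  refine (mul_le_mul_of_nonneg_left h2 hX).trans ?_
  rw [← div_eq_mul_inv, div_le_iff₀ hY, inv_eq_one_div, div_div, one_div, ← div_eq_inv_mul,
    le_div_iff₀ (by positivity)]
  exact h5

/-- NumE -/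
theorem numE (k s t h N n : ℕ) (ht : 20000 ≤ t) (hk1 : 2 ^ (8 * t) ≤ k)
    (hk2 : k < 2 ^ (8 * t + 8)) (hs : s = k / (12 * 4100000)) (hh : h = 10 ^ 8)
    (hN : N ≤ 320000 * (8 * t + 17)) (hN3 : 3 ≤ N) (hn : n ≤ 320000 * (t + 1))
    (hn2 : 40000 * (8 * t + 1) ≤ n) :
    NumE k s 4 h N n ((2 : ℝ) ^ (17000 * t))⁻¹ := by
  have hkb : 10 ^ 12 ≤ k := by
    refine le_trans ?_ hk1
    have : 2 ^ 40 ≤ 2 ^ (8 * t) := Nat.pow_le_pow_right (by norm_num) (by omega)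
    exact le_trans (by norm_num) this
  have hs1 : 1 ≤ s := by omega
  have hsk : s ≤ k := by omega
  have hs0 : (0 : ℝ) < s := by exact_mod_cast hs1
  have hks : k ≤ 50000000 * s := by omega
  have hks' : (k : ℝ) ≤ 50000000 * s := by exact_mod_cast hks
  have hs27 : (2 * k : ℝ) / s ≤ 2 ^ 27 := by
    rw [div_le_iff₀ hs0]
    nlinarith
  have hs28 : (4 * k : ℝ) / s ≤ 2 ^ 28 := by
    rw [div_le_iff₀ hs0]
    nlinarith
  refine ⟨by omega, hs1, hsk, by omega, ?_, by omega, hN3,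
    part1 k s t N h ht hk1 hs27 hN hh, part2 k s t n ht hk1 hk2 hs28 hsk hn hn2⟩
  rw [hh]
  norm_num

end Pool.Agent.CG.H9
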