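import Pool.Agent.Helper9_CG.Stmt

/-!
# CG: numbers of one round, part C (NumP and NumC)
-/

set_option autoImplicit false
set_option exponentiation.threshold 100

namespace Pool.Agent.CG.H9

open Pool.Agent.LAG Pool.Agent.LLG

theorem log_le_two (k l : ℕ) (hk0 : 0 < k) (hk : k < 2 ^ l) : Real.log k ≤ l := by
  have h1 : (k : ℝ) ≤ 2 ^ l := by exact_mod_cast hk.le
  have hk0' : (0 : ℝ) < k := by exact_mod_cast hk0
  calc Real.log k ≤ Real.log (2 ^ l) := Real.log_le_log hk0' h1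
    _ = l * Real.log 2 := by rw [Real.log_pow]
    _ ≤ l * 1 := by
        apply mul_le_mul_of_nonneg_left _ (Nat.cast_nonneg _)
        have := Real.log_two_lt_d9
        linarith
    _ = l := mul_one _

/-- the factor `(D / w) ^ c` -/
theorem dw (k t w c : ℕ) (ht : 2 ≤ t) (hk1 : 2 ^ (8 * t) ≤ k) (hw : w = Nat.sqrt k + 1)
    (hc : c = 4100) :
    (((2 * 2 ^ (t - 2) : ℕ) : ℝ) / w) ^ c ≤ ((2 : ℝ) ^ (12300 * t))⁻¹ := by
  have hw0 : (0 : ℝ) < w := by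
    have : 0 < w := by omega
    exact_mod_cast this
  have h1 : (k : ℝ) ≤ (w : ℝ) ^ 2 := by
    have h2 : k < w * w := by
      rw [hw]
      exact Nat.lt_succ_sqrt k
    have h3 : k ≤ w ^ 2 := by rw [pow_two]; exact h2.le
    exact_mod_cast h3
  have h2 : (2 : ℝ) ^ (8 * t) ≤ k := by exact_mod_cast hk1
  have h3 : ((2 * 2 ^ (t - 2) : ℕ) : ℝ) ≤ 2 ^ t := by
    have h31 : 2 * 2 ^ (t - 2) ≤ 2 ^ t := by
      rw [← pow_succ']
      exact Nat.pow_le_pow_right (by norm_num) (by omega)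
    exact_mod_cast h31
  have h4 : (((2 * 2 ^ (t - 2) : ℕ) : ℝ) / w) ^ 2 ≤ ((2 : ℝ) ^ (6 * t))⁻¹ := by
    rw [div_pow, div_le_iff₀ (by positivity), ← div_eq_inv_mul, le_div_iff₀ (by positivity)]
    have h41 : ((2 * 2 ^ (t - 2) : ℕ) : ℝ) ^ 2 ≤ (2 : ℝ) ^ (2 * t) := by
      rw [mul_comm 2 t, pow_mul]
      exact pow_le_pow_left₀ (Nat.cast_nonneg _) h3 2
    calc ((2 * 2 ^ (t - 2) : ℕ) : ℝ) ^ 2 * 2 ^ (6 * t) ≤ 2 ^ (2 * t) * 2 ^ (6 * t) := by
          gcongr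
      _ = 2 ^ (8 * t) := by rw [← pow_add]; congr 1; ring
      _ ≤ (w : ℝ) ^ 2 := h2.trans h1
  have h5 : c = 2 * 2050 := by rw [hc]
  rw [h5, pow_mul]
  refine (pow_le_pow_left₀ (by positivity) h4 2050).trans ?_
  rw [inv_pow, ← pow_mul]
  have h6 : 6 * t * 2050 = 12300 * t := by ring
  rw [h6]

theorem kc (k t w c : ℕ) (ht : 2 ≤ t) (hk1 : 2 ^ (8 * t) ≤ k) (hk2 : k < 2 ^ (8 * t + 8))
    (hw : w = Nat.sqrt k + 1) (hc : c = 4100) :
    (k : ℝ) ^ 2 * (((2 * 2 ^ (t - 2) : ℕ) : ℝ) / w) ^ c ≤ ((2 : ℝ) ^ (12284 * t - 16))⁻¹ := by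
  have h1 := dw k t w c ht hk1 hw hc
  have h2 : (k : ℝ) ^ 2 ≤ 2 ^ (16 * t + 16) := by
    have h21 : (k : ℝ) ≤ 2 ^ (8 * t + 8) := by exact_mod_cast hk2.le
    have h22 : 16 * t + 16 = (8 * t + 8) * 2 := by ring
    rw [h22, pow_mul]
    exact pow_le_pow_left₀ (Nat.cast_nonneg _) h21 2
  calc (k : ℝ) ^ 2 * (((2 * 2 ^ (t - 2) : ℕ) : ℝ) / w) ^ c
      ≤ 2 ^ (16 * t + 16) * ((2 : ℝ) ^ (12300 * t))⁻¹ := by
        gcongr
    _ = ((2 : ℝ) ^ (12284 * t - 16))⁻¹ := by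
        obtain ⟨p, hp⟩ : ∃ p, p = 12284 * t - 16 := ⟨_, rfl⟩
        obtain ⟨q, hq⟩ : ∃ q, q = 16 * t + 16 := ⟨_, rfl⟩
        have h3 : 12300 * t = p + q := by omega
        rw [← hp, ← hq, h3, pow_add, mul_inv]
        have : (2 : ℝ) ^ q ≠ 0 := by positivity
        field_simp

theorem X_le (k t : ℕ) (hk2 : k < 2 ^ (8 * t + 8)) : ((2 * k + 3 : ℕ) : ℝ) ≤ 2 ^ (8 * t + 10) := by
  have h1 : 2 * k + 3 ≤ 2 ^ (8 * t + 10) := by
    have h2 : 2 ^ (8 * t + 10) = 2 ^ (8 * t + 8) * 4 := by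
      rw [show 8 * t + 10 = (8 * t + 8) + 2 from rfl, pow_add]
      norm_num
    have h3 : 1 ≤ 2 ^ (8 * t + 8) := Nat.one_le_two_pow
    rw [h2]
    omega
  exact_mod_cast h1

theorem b_le (k t : ℕ) (hk2 : k < 2 ^ (8 * t + 8)) :
    (((2 * k + 3) ^ 2003 : ℕ) : ℝ) ≤ 2 ^ (16024 * t + 20030) := by
  push_cast
  have h1 := X_le k t hk2
  push_cast at h1
  have h2 : 16024 * t + 20030 = (8 * t + 10) * 2003 := by ring
  rw [h2, pow_mul]
  exact pow_le_pow_left₀ (by positivity) h1 2003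

theorem m_ge (t h : ℕ) (ht : 20000 ≤ t) (hh : h = 10 ^ 8) :
    (2 : ℝ) ^ (40000 * t) ≤ (((2 ^ (t - 2)) ^ h : ℕ) : ℝ) := by
  have h1 : 2 ^ (40000 * t) ≤ (2 ^ (t - 2)) ^ h := by
    rw [← pow_mul]
    apply Nat.pow_le_pow_right (by norm_num)
    subst hh
    omega
  exact_mod_cast h1

theorem kap_le (k c m D w t p : ℕ) (ht : 20000 ≤ t) (hp : p = 12284 * t - 16)
    (hm : (2 : ℝ) ^ (40000 * t) ≤ m)
    (hkc : (k : ℝ) ^ 2 * ((D : ℝ) / w) ^ c ≤ ((2 : ℝ) ^ p)⁻¹) :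
    kap k c m D w ≤ ((2 : ℝ) ^ (24566 * t - 34))⁻¹ := by
  have hkc0 : 0 ≤ (k : ℝ) ^ 2 * ((D : ℝ) / w) ^ c := by positivity
  obtain ⟨q, hq⟩ : ∃ q, q = 24566 * t - 34 := ⟨_, rfl⟩
  rw [← hq]
  have e1 : 1 / (m : ℝ) ≤ ((2 : ℝ) ^ (q + 1))⁻¹ := by
    rw [one_div]
    apply inv_anti₀ (by positivity)
    exact le_trans (pow_le_pow_right₀ (by norm_num) (by omega)) hm
  have e2 : 2 * ((k : ℝ) ^ 2 * ((D : ℝ) / w) ^ c) ^ 2 ≤ ((2 : ℝ) ^ (q + 1))⁻¹ := by
    have h1 : ((k : ℝ) ^ 2 * ((D : ℝ) / w) ^ c) ^ 2 ≤ (((2 : ℝ) ^ p)⁻¹) ^ 2 :=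
      pow_le_pow_left₀ hkc0 hkc 2
    rw [inv_pow, ← pow_mul] at h1
    have h2 : (2 : ℝ) ^ (q + 1) * 2 ≤ 2 ^ (p * 2) := by
      rw [← pow_succ]
      exact pow_le_pow_right₀ (by norm_num) (by omega)
    have h3 := inv_anti₀ (by positivity) h2
    rw [mul_inv] at h3
    have h4 : 0 < ((2 : ℝ) ^ (q + 1))⁻¹ := by positivity
    linarith
  unfold kap
  refine (add_le_add e1 e2).trans (le_of_eq ?_)
  rw [pow_succ, mul_inv]
  ring

theorem numP (k s t h w b m D c j : ℕ) (M : ℝ) (ht : 20000 ≤ t) (hk1 : 2 ^ (8 * t) ≤ k)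
    (hk2 : k < 2 ^ (8 * t + 8)) (hs : s = k / (12 * 4100000)) (hh : h = 10 ^ 8)
    (hw : w = Nat.sqrt k + 1) (hb : b = (2 * k + 3) ^ 2003) (hm : m = (2 ^ (t - 2)) ^ h)
    (hD : D = 2 * 2 ^ (t - 2)) (hc : c = 4100) (hj : j = 4100000) (hM : M = 2100 * Real.log k) :
    NumP k s c j b m D w 4 M := by
  have hXb : 2 * k + 3 ≤ b := by
    rw [hb]
    exact Nat.le_self_pow (by norm_num) _
  have hmt := m_ge t h ht hh
  rw [← hm] at hmt
  have hbt := b_le k t hk2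
  rw [← hb] at hbt
  have hkc := kc k t w c (by omega) hk1 hk2 hw hc
  rw [← hD] at hkc
  clear hb hm hh
  obtain ⟨p, hp⟩ : ∃ p, p = 12284 * t - 16 := ⟨_, rfl⟩
  rw [← hp] at hkc
  have hkap := kap_le k c m D w t p ht hp hmt hkc
  have hkb : 10 ^ 12 ≤ k := by
    refine le_trans ?_ hk1
    have : 2 ^ 40 ≤ 2 ^ (8 * t) := Nat.pow_le_pow_right (by norm_num) (by omega)
    exact le_trans (by norm_num) this
  have hk0 : 0 < k := by omega
  have hk0' : (0 : ℝ) < k := by exact_mod_cast hk0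
  have hb0 : (0 : ℝ) < b := by
    have : 0 < b := by omega
    exact_mod_cast this
  have hlog1 : 1 ≤ Real.log k := by
    have h1 : (3 : ℝ) ≤ k := by
      have : 3 ≤ k := by omega
      exact_mod_cast this
    calc (1 : ℝ) = Real.log (Real.exp 1) := (Real.log_exp 1).symm
      _ ≤ Real.log k := by
          apply Real.log_le_log (Real.exp_pos 1)
          have := Real.exp_one_lt_d9
          linarith
  have hlog2 : Real.log k ≤ 2 ^ (8 * t + 8) := by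
    have h1 := log_le_two k (8 * t + 8) hk0 hk2
    have h2 : 8 * t + 8 < 2 ^ (8 * t + 8) := Nat.lt_two_pow_self
    have h3 : ((8 * t + 8 : ℕ) : ℝ) ≤ 2 ^ (8 * t + 8) := by exact_mod_cast h2.le
    exact h1.trans h3
  have hlogw : Real.log k ≤ 2 * w := by
    have h2 : (k : ℝ) ≤ (w : ℝ) ^ 2 := by
      have h21 : k < w * w := by
        rw [hw]
        exact Nat.lt_succ_sqrt k
      have h3 : k ≤ w ^ 2 := by rw [pow_two]; exact h21.le
      exact_mod_cast h3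
    have hw0 : (0 : ℝ) < w := by
      have : 0 < w := by omega
      exact_mod_cast this
    calc Real.log k ≤ Real.log ((w : ℝ) ^ 2) := Real.log_le_log hk0' h2
      _ = 2 * Real.log w := by rw [Real.log_pow]; norm_num
      _ ≤ 2 * w := by
          have := Real.log_le_self hw0.le
          linarith
  have hm0 : (0 : ℝ) < m := lt_of_lt_of_le (by positivity) hmt
  have hDk : 2 * D ≤ k := by
    rw [hD]
    have h1 : 2 * (2 * 2 ^ (t - 2)) = 2 ^ t := by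
      rw [← mul_assoc, show 2 * 2 = 2 ^ 2 from rfl, ← pow_add]
      congr 1
      omega
    rw [h1]
    exact (Nat.pow_le_pow_right (by norm_num) (by omega)).trans hk1
  clear hD
  refine ⟨?_, ?_, ?_, ?_, ?_, ?_, ?_, ?_, hw, hDk, ?_, ?_, ?_, ?_, ?_, ?_, ?_, ?_⟩
  · rw [hj, hc]
  · rw [hc]; norm_num
  · rw [hj, hs]; exact Nat.mul_div_le k (12 * 4100000)
  · rw [hj]; omega
  · omega
  · have : 0 < m := by exact_mod_cast hm0
    exact this
  · omega
  · omega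
  · have h1 : 1 * k ≤ k * k := Nat.mul_le_mul_right k (by omega)
    have h2 : 400 * k ≤ k * k := Nat.mul_le_mul_right k (by omega)
    rw [pow_two]
    omega
  · omega
  · refine hkc.trans ?_
    rw [inv_le_comm₀ (by positivity) (by norm_num)]
    have h1 : (2 : ℝ) ^ 1 ≤ 2 ^ p :=
      pow_le_pow_right₀ (by norm_num) (by omega)
    norm_num at h1 ⊢
    exact h1
  · calc 1000 * (b : ℝ) * Real.log k * kap k c m D w
        ≤ 2 ^ 10 * 2 ^ (16024 * t + 20030) * 2 ^ (8 * t + 8) *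
          ((2 : ℝ) ^ (24566 * t - 34))⁻¹ := by
          have h0 : 0 ≤ kap k c m D w := by
            unfold kap
            positivity
          have h1 : (1000 : ℝ) ≤ 2 ^ 10 := by norm_num
          have h2 : 0 ≤ Real.log k := by linarith
          exact mul_le_mul (mul_le_mul (mul_le_mul h1 hbt hb0.le (by positivity)) hlog2 h2
            (by positivity)) hkap h0 (by positivity)
      _ ≤ 1 := by
          rw [← pow_add, ← pow_add, ← div_eq_mul_inv, div_le_one (by positivity)]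
          exact pow_le_pow_right₀ (by norm_num) (by omega)
  · rw [hM]; linarith
  · rw [hM]
    calc 100 * (2100 * Real.log k) * (b : ℝ)
        ≤ 2 ^ 7 * (2 ^ 12 * 2 ^ (8 * t + 8)) * 2 ^ (16024 * t + 20030) := by
          have h1 : (100 : ℝ) ≤ 2 ^ 7 := by norm_num
          have h2 : (2100 : ℝ) ≤ 2 ^ 12 := by norm_num
          have h3 : 0 ≤ Real.log k := by linarith
          exact mul_le_mul (mul_le_mul h1 (mul_le_mul h2 hlog2 h3 (by positivity))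
            (by positivity) (by positivity)) hbt hb0.le (by positivity)
      _ ≤ 2 ^ (40000 * t) := by
          obtain ⟨u, hu⟩ : ∃ u, u = 8 * t + 8 := ⟨_, rfl⟩
          obtain ⟨v, hv⟩ : ∃ v, v = 16024 * t + 20030 := ⟨_, rfl⟩
          obtain ⟨x, hx⟩ : ∃ x, x = 40000 * t := ⟨_, rfl⟩
          have hle : 7 + (12 + u) + v ≤ x := by omega
          rw [← hu, ← hv, ← hx, ← pow_add, ← pow_add, ← pow_add]
          exact pow_le_pow_right₀ (by norm_num) hle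
      _ ≤ m := hmt
  · rw [hM, hc]
    push_cast
    linarith
  · rw [hM, hc]
    push_cast
    linarith

end Pool.Agent.CG.H9
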