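import Pool.Agent.Helper9_CG.NumA
import Pool.Agent.Helper9_CG.NumB
import Pool.Agent.Helper9_CG.NumC

/-!
# CG: numbers of one round (NUMRC)
-/

set_option autoImplicit false
set_option exponentiation.threshold 100

namespace Pool.Agent.CG.H9

open Pool.Agent.LAG Pool.Agent.LLG

/-- the three weights -/
theorem weights (K S B ε μ : ℝ) (u : ℕ) (hK : 1 ≤ K) (hKu : K ≤ 2 ^ u) (hS0 : 0 ≤ S)
    (hS : 160 * S ≤ K) (hB0 : 0 < B) (hμ0 : 0 ≤ μ) (hε0 : 0 ≤ ε)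
    (hμ : μ * B ≤ ((2 : ℝ) ^ (5 * u + 20))⁻¹) (hε : ε * B ≤ ((2 : ℝ) ^ (5 * u + 20))⁻¹)
    (n1 : ℝ) (hn1 : n1 * K ^ 3 ≤ B) (hn0 : 0 ≤ n1) :
    4 * S * K ^ 2 * μ + 4 * S * ε ≤ 1 / (400 * K ^ 2 * B) ∧
    8 * S * μ + 32 * n1 * S ^ 2 / B ^ 2 ≤ 1 / (400 * B) ∧
    24 * S * μ ≤ 1 / (400 * B) := by
  have hK0 : 0 < K := by linarith
  have hSK : S ≤ K := by linarith
  have hK5 : K ^ 5 ≤ 2 ^ (5 * u) := by
    rw [mul_comm, pow_mul]
    exact pow_le_pow_left₀ hK0.le hKu 5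
  have hY : (0 : ℝ) < 2 ^ (5 * u) := by positivity
  have h20 : ((2 : ℝ) ^ (5 * u + 20))⁻¹ * K ^ 5 ≤ 1 / 1000000 := by
    rw [pow_add, mul_inv, mul_comm, ← mul_assoc]
    have h1 : K ^ 5 * (2 ^ (5 * u))⁻¹ ≤ 1 := by
      rw [← div_eq_mul_inv, div_le_one hY]
      exact hK5
    calc K ^ 5 * (2 ^ (5 * u))⁻¹ * ((2 : ℝ) ^ 20)⁻¹ ≤ 1 * ((2 : ℝ) ^ 20)⁻¹ := by
          gcongr
      _ ≤ 1 / 1000000 := by norm_num
  have hp : ∀ i, i ≤ 5 → K ^ i ≤ K ^ 5 := fun i hi => pow_le_pow_right₀ hK hi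
  have a1 : μ * B * K ^ 5 ≤ 1 / 1000000 :=
    (mul_le_mul_of_nonneg_right hμ (by positivity)).trans h20
  have a2 : ε * B * K ^ 5 ≤ 1 / 1000000 :=
    (mul_le_mul_of_nonneg_right hε (by positivity)).trans h20
  have hμB : 0 ≤ μ * B := mul_nonneg hμ0 hB0.le
  have hεB : 0 ≤ ε * B := mul_nonneg hε0 hB0.le
  refine ⟨?_, ?_, ?_⟩
  · rw [le_div_iff₀ (by positivity)]
    have b1 : S * K ^ 4 * (μ * B) ≤ K ^ 5 * (μ * B) := by
      apply mul_le_mul_of_nonneg_right _ hμB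
      calc S * K ^ 4 ≤ K * K ^ 4 := mul_le_mul_of_nonneg_right hSK (by positivity)
        _ = K ^ 5 := by ring
    have b2 : S * K ^ 2 * (ε * B) ≤ K ^ 5 * (ε * B) := by
      apply mul_le_mul_of_nonneg_right _ hεB
      calc S * K ^ 2 ≤ K * K ^ 2 := mul_le_mul_of_nonneg_right hSK (by positivity)
        _ = K ^ 3 := by ring
        _ ≤ K ^ 5 := hp 3 (by norm_num)
    calc (4 * S * K ^ 2 * μ + 4 * S * ε) * (400 * K ^ 2 * B)
        = 1600 * (S * K ^ 4 * (μ * B)) + 1600 * (S * K ^ 2 * (ε * B)) := by ring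
      _ ≤ 1 := by nlinarith
  · have b1 : S * (μ * B) ≤ K ^ 5 * (μ * B) := by
      apply mul_le_mul_of_nonneg_right _ hμB
      have := hp 1 (by norm_num)
      rw [pow_one] at this
      linarith
    have b2 : 32 * n1 * S ^ 2 / B ^ 2 * (400 * B) ≤ 1 / 2 := by
      have c1 : 32 * n1 * S ^ 2 / B ^ 2 * (400 * B) = 12800 * (n1 * S ^ 2) / B := by
        field_simp
        ring
      rw [c1, div_le_iff₀ hB0]
      have c2 : 25600 * S ^ 2 ≤ K ^ 2 := by nlinarith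
      have c3 : K ^ 2 ≤ K ^ 3 := pow_le_pow_right₀ hK (by norm_num)
      have c4 : n1 * (25600 * S ^ 2) ≤ n1 * K ^ 3 :=
        mul_le_mul_of_nonneg_left (c2.trans c3) hn0
      nlinarith
    rw [le_div_iff₀ (by positivity)]
    calc (8 * S * μ + 32 * n1 * S ^ 2 / B ^ 2) * (400 * B)
        = 3200 * (S * (μ * B)) + 32 * n1 * S ^ 2 / B ^ 2 * (400 * B) := by ring
      _ ≤ 1 := by nlinarith
  · have b1 : S * (μ * B) ≤ K ^ 5 * (μ * B) := by
      apply mul_le_mul_of_nonneg_right _ hμB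
      have := hp 1 (by norm_num)
      rw [pow_one] at this
      linarith
    rw [le_div_iff₀ (by positivity)]
    calc 24 * S * μ * (400 * B) = 9600 * (S * (μ * B)) := by ring
      _ ≤ 1 := by nlinarith

/-- the exponential of `- 2100 log k` -/
theorem exp_M (k t : ℕ) (hk1 : 2 ^ (8 * t) ≤ k) :
    Real.exp (-(2100 * Real.log k)) ≤ ((2 : ℝ) ^ (16800 * t))⁻¹ := by
  have hk0 : (0 : ℝ) < k := by
    have : 0 < k := lt_of_lt_of_le (by positivity) hk1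
    exact_mod_cast this
  have h1 : (2 : ℝ) ^ (8 * t) ≤ k := by exact_mod_cast hk1
  have h2 : 2100 * Real.log k = Real.log ((k : ℝ) ^ 2100) := by
    rw [Real.log_pow]
    norm_num
  rw [Real.exp_neg, h2, Real.exp_log (pow_pos hk0 _)]
  apply inv_anti₀ (by positivity)
  have h3 : 16800 * t = 8 * t * 2100 := by ring
  rw [h3, pow_mul]
  exact pow_le_pow_left₀ (by positivity) h1 2100

theorem numC (k s t h w b m D c j n1 lm : ℕ) (M : ℝ) (ht : 20000 ≤ t) (hk1 : 2 ^ (8 * t) ≤ k)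
    (hk2 : k < 2 ^ (8 * t + 8)) (hs : s = k / (12 * 4100000)) (hh : h = 10 ^ 8)
    (hw : w = Nat.sqrt k + 1) (hb : b = (2 * k + 3) ^ 2003) (hm : m = (2 ^ (t - 2)) ^ h)
    (hD : D = 2 * 2 ^ (t - 2)) (hc : c = 4100) (hj : j = 4100000) (hM : M = 2100 * Real.log k)
    (hn1 : n1 = (2 * k + 3) ^ 2000) (hlm : lm ≤ 320000 * (8 * t + 17)) :
    NumC k s c j b m D w 4 n1 lm ((2 : ℝ) ^ (17000 * t))⁻¹ M := by
  have hP := numP k s t h w b m D c j M ht hk1 hk2 hs hh hw hb hm hD hc hj hM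
  have hXb : 2 * k + 3 ≤ b := by
    rw [hb]
    exact Nat.le_self_pow (by norm_num) _
  have hbt := b_le k t hk2
  rw [← hb] at hbt
  have hn1b : n1 * k ^ 3 ≤ b := by
    rw [hn1, hb, show 2003 = 2000 + 3 from rfl, pow_add]
    exact Nat.mul_le_mul_left _ (Nat.pow_le_pow_left (by omega) 3)
  clear hb hm hh hn1
  have hkb : 10 ^ 12 ≤ k := by
    refine le_trans ?_ hk1
    have : 2 ^ 40 ≤ 2 ^ (8 * t) := Nat.pow_le_pow_right (by norm_num) (by omega)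
    exact le_trans (by norm_num) this
  have hk0 : 0 < k := by omega
  have hk1' : (1 : ℝ) ≤ k := by
    have : 1 ≤ k := by omega
    exact_mod_cast this
  have hb0 : (0 : ℝ) < b := by
    have : 0 < b := by omega
    exact_mod_cast this
  have hS : 160 * (s : ℝ) ≤ k := by
    have : 160 * s ≤ k := by omega
    exact_mod_cast this
  have hku : (k : ℝ) ≤ 2 ^ (8 * t + 8) := by exact_mod_cast hk2.le
  have hmu := exp_M k t hk1
  rw [← hM] at hmu
  have hn1b' : (n1 : ℝ) * (k : ℝ) ^ 3 ≤ b := by exact_mod_cast hn1b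
  have hw3 := weights (k : ℝ) (s : ℝ) (b : ℝ) ((2 : ℝ) ^ (17000 * t))⁻¹ (Real.exp (-M))
    (8 * t + 8) hk1' hku (Nat.cast_nonneg _) hS hb0 (Real.exp_pos _).le (by positivity) ?_ ?_
    (n1 : ℝ) hn1b' (Nat.cast_nonneg _)
  · refine ⟨hP, by positivity, ?_, hw3.1, hw3.2.1, hw3.2.2⟩
    have h1 : t < 2 ^ t := Nat.lt_two_pow_self
    have h2 : 2 ^ t ≤ 2 ^ (8 * t) := Nat.pow_le_pow_right (by norm_num) (by omega)
    have h3 : lm ≤ 2600000 * k := by omega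
    have h4 : 10 ^ 12 * k ≤ k * k := Nat.mul_le_mul_right k hkb
    have h5 : k * k * 1 ≤ k * k * b := Nat.mul_le_mul_left _ (by omega)
    have h6 : lm ≤ 200 * (k * k * b) := by omega
    have h7 : (lm : ℝ) ≤ 200 * ((k : ℝ) * k * b) := by exact_mod_cast h6
    calc (lm : ℝ) ≤ 200 * ((k : ℝ) * k * b) := h7
      _ = 200 * (k : ℝ) ^ 2 * b := by ring
  · calc Real.exp (-M) * b ≤ ((2 : ℝ) ^ (16800 * t))⁻¹ * 2 ^ (16024 * t + 20030) :=
          mul_le_mul hmu hbt hb0.le (by positivity)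
      _ ≤ ((2 : ℝ) ^ (5 * (8 * t + 8) + 20))⁻¹ := by
          obtain ⟨u, hu⟩ : ∃ u, u = 5 * (8 * t + 8) + 20 := ⟨_, rfl⟩
          obtain ⟨v, hv⟩ : ∃ v, v = 16024 * t + 20030 := ⟨_, rfl⟩
          obtain ⟨x, hx⟩ : ∃ x, x = 16800 * t := ⟨_, rfl⟩
          have hle : v + u ≤ x := by omega
          rw [← hu, ← hv, ← hx, mul_comm, ← div_eq_mul_inv, div_le_iff₀ (by positivity),
            ← div_eq_inv_mul, le_div_iff₀ (by positivity), ← pow_add]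
          exact pow_le_pow_right₀ (by norm_num) hle
  · calc ((2 : ℝ) ^ (17000 * t))⁻¹ * b ≤ ((2 : ℝ) ^ (17000 * t))⁻¹ * 2 ^ (16024 * t + 20030) :=
          mul_le_mul_of_nonneg_left hbt (by positivity)
      _ ≤ ((2 : ℝ) ^ (5 * (8 * t + 8) + 20))⁻¹ := by
          obtain ⟨u, hu⟩ : ∃ u, u = 5 * (8 * t + 8) + 20 := ⟨_, rfl⟩
          obtain ⟨v, hv⟩ : ∃ v, v = 16024 * t + 20030 := ⟨_, rfl⟩
          obtain ⟨x, hx⟩ : ∃ x, x = 17000 * t := ⟨_, rfl⟩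
          have hle : v + u ≤ x := by omega
          rw [← hu, ← hv, ← hx, mul_comm, ← div_eq_mul_inv, div_le_iff₀ (by positivity),
            ← div_eq_inv_mul, le_div_iff₀ (by positivity), ← pow_add]
          exact pow_le_pow_right₀ (by norm_num) hle

end Pool.Agent.CG.H9
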