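import Pool.Agent.Helper9_CG.Stmt

/-!
# CG: module SG (states of LLG with `q = 1` are states of CG)
-/

set_option autoImplicit false

namespace Pool.Agent.CG

open SimpleGraph Pool.Agent.LAG Pool.Agent.LLG

namespace H9

/-- the middle vertex of a walk -/
theorem near_mid {V : Type} {G : SimpleGraph V} {r : ℕ} {a b : V} (h : near G (2 * r) a b) :
    ∃ v, near G r a v ∧ near G r b v := by
  obtain ⟨p, hp⟩ := h
  refine ⟨p.getVert r, ⟨p.take r, ?_⟩, ⟨(p.drop r).reverse, ?_⟩⟩
  · rw [Walk.take_length]
    exact min_le_left _ _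
  · rw [Walk.length_reverse, Walk.drop_length]
    omega

theorem sg : SgStmt := by
  intro k g hg hG V _ A R Q hst
  have hU : (⋃ i : Fin 4, (if i = 0 then Q else ∅ : Set V)) = Q := by
    ext x
    simp
  have h := hG V A R (fun i => if i = 0 then Q else ∅) ?_
  · rwa [hU] at h
  refine ⟨hst.le, hst.m2, hst.m3, hst.big, hst.deg, ?_, ?_, ?_⟩
  · intro i j x hx y hy hxy
    have hx' : x ∈ Q := by
      by_contra hc
      split_ifs at hx
      · exact hc hx
      · exact hx
    have hy' : y ∈ Q := by
      by_contra hc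
      split_ifs at hy
      · exact hc hy
      · exact hy
    exact hst.sep x hx' y hy' hxy
  · intro x hx y hy hxy hn
    simp only [if_true] at hx hy
    obtain ⟨v, hv1, hv2⟩ := near_mid (r := 93) hn
    have h1 := hst.bal v
    have h2 : ({x, y} : Set V) ⊆ {x | x ∈ Q ∧ near A 93 x v} := by
      rintro z (rfl | rfl)
      · exact ⟨hx, hv1⟩
      · exact ⟨hy, hv2⟩
    have h3 := Set.ncard_le_ncard h2 (Set.toFinite _)
    rw [Set.ncard_pair hxy] at h3
    omega
  · intro i hi x hx
    simp only [if_neg hi] at hx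
    exact absurd hx (Set.notMem_empty x)

end H9

end Pool.Agent.CG
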